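import Pool.Agent.W172.WL.Stm

set_option autoImplicit false

/-!
# Part GRAPH: counting solutions of equality constraints
-/

namespace Pool.Agent.W554.WL

open Pool.Agent.W172.WL

theorem key {V : Type} [Fintype V] [DecidableEq V] {b : ℕ} {S : Finset V} {f : V → V}
    {c : V → Option (Fin b)} {A : Finset (V → Fin b)}
    (hA : ∀ x ∈ A, ∀ s ∈ S, (c s = none → x s = x (f s)) ∧ (∀ d, c s = some d → x s = d))
    (r : V → ℕ) {T : Finset V} (hT : T ⊆ S)
    (hr : ∀ s ∈ T, (∃ d, c s = some d) ∨ (c s = none ∧ r (f s) < r s)) :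
    A.card ≤ b ^ (Fintype.card V - T.card) := by
  classical
  have hinj : Function.Injective
      (fun (x : {x // x ∈ A}) (v : {v // v ∉ T}) => x.1 v.1) := by
    rintro ⟨x, hx⟩ ⟨y, hy⟩ hxy
    apply Subtype.ext
    have h1 : ∀ v, v ∉ T → x v = y v := fun v hv => congrFun hxy ⟨v, hv⟩
    have h2 : ∀ n : ℕ, ∀ v, r v = n → x v = y v := by
      intro n
      induction n using Nat.strong_induction_on with
      | _ n ih =>
        intro v hv
        by_cases hvT : v ∈ T
        · rcases hr v hvT with ⟨d, hd⟩ | ⟨hn, hlt⟩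
          · rw [(hA x hx v (hT hvT)).2 d hd, (hA y hy v (hT hvT)).2 d hd]
          · rw [(hA x hx v (hT hvT)).1 hn, (hA y hy v (hT hvT)).1 hn]
            exact ih (r (f v)) (by omega) (f v) rfl
        · exact h1 v hvT
    funext v
    exact h2 _ v rfl
  have h3 := Fintype.card_le_of_injective _ hinj
  rw [Fintype.card_coe, Fintype.card_fun, Fintype.card_fin] at h3
  have h4 : Fintype.card {v // v ∉ T} = Fintype.card V - T.card := by
    rw [Fintype.card_subtype_compl, Fintype.card_coe]
  rwa [h4] at h3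

theorem graph : S_GRAPH := by
  classical
  intro V _ _ b S f c hf A hA
  -- the case `b = 0`
  rcases Nat.eq_zero_or_pos b with hb | hb
  · subst hb
    rcases A.eq_empty_or_nonempty with hA0 | ⟨x, -⟩
    · subst hA0; simp
    · have hV : IsEmpty V := ⟨fun v => (x v).elim0⟩
      have hS : S = ∅ := Finset.eq_empty_of_isEmpty S
      subst hS
      have h1 : A.card ≤ 1 := by
        have := Finset.card_le_univ A
        simpa using this
      have h2 : A.card ^ 2 ≤ 1 := pow_le_one₀ (Nat.zero_le _) h1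
      simpa [Fintype.card_eq_zero] using h2
  -- an injective rank
  obtain ⟨e⟩ : Nonempty (V ≃ Fin (Fintype.card V)) := ⟨Fintype.equivFin V⟩
  set r : V → ℕ := fun v => (e v : ℕ) with hr
  set r' : V → ℕ := fun v => Fintype.card V - (e v : ℕ) with hr'
  have hne : ∀ s, f s ≠ s → (r (f s) < r s ∨ r' (f s) < r' s) := by
    intro s hs
    have h1 : (e (f s) : ℕ) ≠ (e s : ℕ) := fun h => hs (e.injective (Fin.ext h))
    have h2 := (e s).2
    have h3 := (e (f s)).2
    simp only [hr, hr']
    omega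
  set T₁ := S.filter (fun s => (∃ d, c s = some d) ∨ (c s = none ∧ r (f s) < r s)) with hT₁
  set T₂ := S.filter (fun s => (∃ d, c s = some d) ∨ (c s = none ∧ r' (f s) < r' s)) with hT₂
  have hcov : S ⊆ T₁ ∪ T₂ := by
    intro s hs
    rw [Finset.mem_union, hT₁, hT₂, Finset.mem_filter, Finset.mem_filter]
    rcases hcs : c s with _ | d
    · rcases hne s (hf s hs hcs) with h | h
      · exact Or.inl ⟨hs, Or.inr ⟨rfl, h⟩⟩
      · exact Or.inr ⟨hs, Or.inr ⟨rfl, h⟩⟩
    · exact Or.inl ⟨hs, Or.inl ⟨d, rfl⟩⟩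
  have hcard : S.card ≤ T₁.card + T₂.card :=
    (Finset.card_le_card hcov).trans (Finset.card_union_le _ _)
  obtain ⟨T, hT, hTc⟩ : ∃ T : Finset V, A.card ≤ b ^ (Fintype.card V - T.card) ∧
      S.card ≤ 2 * T.card := by
    rcases le_total T₁.card T₂.card with h | h
    · exact ⟨T₂, key hA r' (Finset.filter_subset _ _) (fun s hs => (Finset.mem_filter.1 hs).2),
        by omega⟩
    · exact ⟨T₁, key hA r (Finset.filter_subset _ _) (fun s hs => (Finset.mem_filter.1 hs).2),
        by omega⟩
  have hTV : T.card ≤ Fintype.card V := Finset.card_le_univ T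
  calc A.card ^ 2 * b ^ S.card ≤ (b ^ (Fintype.card V - T.card)) ^ 2 * b ^ S.card := by gcongr
    _ = b ^ ((Fintype.card V - T.card) * 2 + S.card) := by rw [← pow_mul, ← pow_add]
    _ ≤ b ^ (2 * Fintype.card V) := Nat.pow_le_pow_right hb (by omega)

end Pool.Agent.W554.WL
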